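import Pool.Agent.Helper25.WD.Bar1

/-!
# DV-WILD, block A: the mean value property against a radial function
-/

open Filter Topology GF MeasureTheory Set InnerProductSpace

namespace DV.WD

/-- the function on the complex plane -/
noncomputable def toC (q : Pl → ℝ) : ℂ → ℝ := fun w => q (w.re, w.im)

private lemma toC_eq (q : Pl → ℝ) : toC q = q ∘ Complex.equivRealProdCLM := by
  funext w
  rfl

private lemma second_at {q : Pl → ℝ} {z : Pl} (hq : ContDiffAt ℝ 2 q z) (e : Pl) :
    fderiv ℝ (fun y => fderiv ℝ q y e) z e = fderiv ℝ (fderiv ℝ q) z e e := by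
  have h1 : ContDiffAt ℝ 1 (fderiv ℝ q) z := hq.fderiv_right (by norm_num)
  have h2 : DifferentiableAt ℝ (fderiv ℝ q) z := h1.differentiableAt (by norm_num)
  have h3 := (h2.hasFDerivAt.clm_apply (hasFDerivAt_const e z)).fderiv
  rw [h3]
  simp

private lemma laplacian_toC {q : Pl → ℝ} {w : ℂ} (hq : ContDiffAt ℝ 2 q (w.re, w.im)) :
    Laplacian.laplacian (toC q) w = lap q (w.re, w.im) := by
  have h1 : ∀ v : ℂ, iteratedFDeriv ℝ 2 (toC q) w ![v, v] =
      fderiv ℝ (fderiv ℝ q) (w.re, w.im) (v.re, v.im) (v.re, v.im) := by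
    intro v
    have h2 := ContinuousLinearEquiv.iteratedFDerivWithin_comp_right (𝕜 := ℝ)
      Complex.equivRealProdCLM q uniqueDiffOn_univ (x := w) (Set.mem_univ _) 2
    rw [Set.preimage_univ, iteratedFDerivWithin_univ, iteratedFDerivWithin_univ] at h2
    rw [toC_eq, h2, ContinuousMultilinearMap.compContinuousLinearMap_apply, iteratedFDeriv_two_apply]
    rfl
  rw [laplacian_eq_iteratedFDeriv_complexPlane]
  simp only
  rw [h1, h1]
  unfold lap dx dy
  rw [second_at hq, second_at hq]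
  simp

private lemma harmonicAt_toC {q : Pl → ℝ} {w : ℂ} (hq : ∀ᶠ z in 𝓝 ((w.re, w.im) : Pl),
    ContDiffAt ℝ 2 q z ∧ lap q z = 0) : HarmonicAt (toC q) w := by
  have hc : Tendsto (fun v : ℂ => ((v.re, v.im) : Pl)) (𝓝 w) (𝓝 (w.re, w.im)) := by
    have : Continuous fun v : ℂ => ((v.re, v.im) : Pl) := by fun_prop
    exact this.tendsto w
  refine ⟨?_, ?_⟩
  · rw [toC_eq]
    exact ContDiffAt.comp w hq.self_of_nhds.1 Complex.equivRealProdCLM.contDiff.contDiffAt
  · filter_upwards [hc.eventually hq] with v hv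
    rw [laplacian_toC hv.1, hv.2]
    rfl

/-- the mean over a circle -/
theorem circle_mean {q : Pl → ℝ} {x : Pl} {r ρ : ℝ} (h0 : 0 < ρ) (hρ : ρ < r)
    (hq : ∀ y, eu y x < r → ContDiffAt ℝ 2 q y ∧ lap q y = 0) :
    ∫ θ in Ioo (-Real.pi) Real.pi, q (x.1 + ρ * Real.cos θ, x.2 + ρ * Real.sin θ) =
      2 * Real.pi * q x := by
  set c : ℂ := ⟨x.1, x.2⟩ with hc
  have hharm : HarmonicOnNhd (toC q) (Metric.closedBall c |ρ|) := by
    intro w hw
    refine harmonicAt_toC ?_
    have h1 : eu ((w.re, w.im) : Pl) x < r := by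
      rw [Metric.mem_closedBall, dist_eq_norm, abs_of_pos h0] at hw
      rw [eu_eq]
      exact lt_of_le_of_lt hw hρ
    have h2 : ∀ᶠ z : Pl in 𝓝 ((w.re, w.im) : Pl), eu z x < r :=
      ((eu_continuous x).continuousAt).eventually (gt_mem_nhds h1)
    filter_upwards [h2] with z hz
    exact hq z hz
  have h1 := hharm.circleAverage_eq
  rw [Real.circleAverage_def, smul_eq_mul] at h1
  have h2 : ∫ θ in (0 : ℝ)..2 * Real.pi, toC q (circleMap c ρ θ) = 2 * Real.pi * q x := by
    have h3 : toC q c = q x := rfl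
    rw [h3] at h1
    rw [← h1]
    have := Real.pi_pos
    field_simp
  have hper : Function.Periodic (fun θ : ℝ => toC q (circleMap c ρ θ)) (2 * Real.pi) := by
    intro θ
    simp only
    rw [periodic_circleMap c ρ θ]
  have h3 := hper.intervalIntegral_add_eq (-Real.pi) 0
  rw [show -Real.pi + 2 * Real.pi = Real.pi by ring, zero_add, h2,
    intervalIntegral.integral_of_le (by linarith [Real.pi_pos]), integral_Ioc_eq_integral_Ioo] at h3
  rw [← h3]
  refine setIntegral_congr_fun measurableSet_Ioo fun θ _ => ?_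
  simp only [toC, circleMap, hc]
  congr 1
  refine Prod.ext ?_ ?_
  · simp [Complex.exp_ofReal_mul_I_re]
  · simp [Complex.exp_ofReal_mul_I_im]

/-- the mean value property against a radial function -/
theorem mean_radial {q χ : Pl → ℝ} {x : Pl} {r : ℝ} (hqc : Continuous q)
    (hq : ∀ y, eu y x < r → ContDiffAt ℝ 2 q y ∧ lap q y = 0) (hχc : Continuous χ)
    (hχr : ∀ y y' : Pl, y.1 ^ 2 + y.2 ^ 2 = y'.1 ^ 2 + y'.2 ^ 2 → χ y = χ y')
    (hχ0 : ∀ y, r ≤ eu y 0 → χ y = 0) : ∫ y, q y * χ (y - x) = q x * ∫ y, χ y := by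
  set g : ℝ → ℝ := fun ρ => χ (ρ, 0) with hg
  have hgc : Continuous g := by
    rw [hg]
    fun_prop
  have hsym : ∀ p : ℝ × ℝ, χ (p.1 * Real.cos p.2, p.1 * Real.sin p.2) = g p.1 := by
    intro p
    refine hχr _ _ ?_
    simp only
    nlinarith [Real.sin_sq_add_cos_sq p.2]
  have hg0 : ∀ ρ, r ≤ ρ → 0 < ρ → g ρ = 0 := by
    intro ρ h1 h2
    refine hχ0 _ ?_
    unfold eu
    simp only [Prod.fst_zero, Prod.snd_zero, sub_zero]
    rw [show ρ ^ 2 + (0 : ℝ) ^ 2 = ρ ^ 2 by ring, Real.sqrt_sq h2.le]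
    exact h1
  -- the polar integral
  have key : ∀ φ : Pl → ℝ, Continuous φ → ∀ C : ℝ,
      (∀ ρ, 0 < ρ → ρ < r → ∫ θ in Ioo (-Real.pi) Real.pi, φ (ρ * Real.cos θ, ρ * Real.sin θ) = C) →
      ∫ p, φ p * χ p = ∫ ρ in Ioi (0 : ℝ), ρ * g ρ * C := by
    intro φ hφ C hC
    rw [← integral_comp_polarCoord_symm]
    have htar : polarCoord.target = Ioi (0 : ℝ) ×ˢ Ioo (-Real.pi) Real.pi := rfl
    set F : ℝ × ℝ → ℝ := fun p => p.1 * g p.1 * φ (p.1 * Real.cos p.2, p.1 * Real.sin p.2) with hF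
    have hFc : Continuous F := by
      rw [hF]
      fun_prop
    have h1 : ∀ p : ℝ × ℝ, p.1 • (φ (polarCoord.symm p) * χ (polarCoord.symm p)) = F p := by
      intro p
      rw [hF, polarCoord_symm_apply, hsym, smul_eq_mul]
      ring
    simp only [h1]
    rw [htar, Measure.volume_eq_prod, setIntegral_prod]
    · refine setIntegral_congr_fun measurableSet_Ioi fun ρ hρ => ?_
      have hρ' : 0 < ρ := hρ
      simp only [hF]
      rw [integral_const_mul]
      by_cases hr : ρ < r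
      · rw [hC ρ hρ' hr]
      · rw [hg0 ρ (not_lt.1 hr) hρ']
        ring
    · have hK : IsCompact (Icc (0 : ℝ) (max r 0) ×ˢ Icc (-Real.pi) Real.pi) :=
        isCompact_Icc.prod isCompact_Icc
      have h2 : IntegrableOn F (Icc (0 : ℝ) (max r 0) ×ˢ Icc (-Real.pi) Real.pi) :=
        hFc.continuousOn.integrableOn_compact hK
      refine h2.of_forall_sdiff_eq_zero (measurableSet_Ioi.prod measurableSet_Ioo) ?_
      rintro ⟨ρ, θ⟩ ⟨⟨h3, h4⟩, h5⟩
      have h3' : 0 < ρ := h3
      have h4' : -Real.pi < θ ∧ θ < Real.pi := h4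
      have h6 : r ≤ ρ := by
        by_contra h7
        push Not at h7
        exact h5 ⟨⟨h3'.le, le_trans h7.le (le_max_left _ _)⟩, ⟨h4'.1.le, h4'.2.le⟩⟩
      simp only [hF]
      rw [hg0 ρ h6 h3']
      ring
  -- translation
  have h1 : ∫ y, q y * χ (y - x) = ∫ p, q (p + x) * χ p := by
    rw [← integral_add_right_eq_self (fun y => q y * χ (y - x)) x]
    simp only [add_sub_cancel_right]
  have h2 := key (fun p => q (p + x)) (by fun_prop) (2 * Real.pi * q x) (by
    intro ρ h0 hρ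
    rw [← circle_mean h0 hρ hq]
    refine setIntegral_congr_fun measurableSet_Ioo fun θ _ => ?_
    congr 1
    refine Prod.ext ?_ ?_
    · simp only [Prod.fst_add]
      ring
    · simp only [Prod.snd_add]
      ring)
  have h3 := key (fun _ => 1) continuous_const (2 * Real.pi) (by
    intro ρ _ _
    simp
    have := Real.pi_pos
    rw [max_eq_left (by linarith)]
    ring)
  rw [h1, h2]
  simp only [one_mul] at h3
  rw [h3, ← integral_const_mul]
  congr 1
  funext ρ
  ring

end DV.WD
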