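import Pool.Agent.Helper25.WD.An
import Pool.Agent.Helper25.WD.Mv
import Pool.Agent.Helper41.DV.E4
import Pool.Agent.Helper41.DV.E5b

/-!
# DV-WILD, block A: positive functionals which are harmonic in an open set
-/

open Filter Topology GF MeasureTheory Set

namespace DV.WD

/-- a positive linear functional on the smooth functions with compact support -/
structure PF (T : (Pl → ℝ) → ℝ) : Prop where
  add : ∀ f g, Cc f → Cc g → T (fun z => f z + g z) = T f + T g
  smul : ∀ (c : ℝ) f, Cc f → T (fun z => c * f z) = c * T f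
  pos : ∀ f, Cc f → (∀ z, 0 ≤ f z) → 0 ≤ T f

/-- comparison on nonnegative functions -/
def LeF (T T' : (Pl → ℝ) → ℝ) : Prop := ∀ η, Cc η → (∀ z, 0 ≤ η z) → T η ≤ T' η

/-- harmonic in `U` -/
def Hm (T : (Pl → ℝ) → ℝ) (U : Set Pl) : Prop := ∀ φ, Tst U φ → T (lap φ) = 0

lemma Hm.mono {T : (Pl → ℝ) → ℝ} {V V' : Set Pl} (h : Hm T V) (hV : V' ⊆ V) : Hm T V' :=
  fun u hu => h u (hu.mono hV)

lemma lap_cc {u : Pl → ℝ} (hu : Cc u) : Cc (lap u) := by
  have key : ∀ {η : Pl → ℝ} (_ : Cc η) (v : Pl), Cc (fun z => fderiv ℝ η z v) := fun {η} hη v =>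
    ⟨(hη.smooth.fderiv_right (m := (⊤ : ℕ∞)) le_rfl).clm_apply contDiff_const, hη.supp.fderiv_apply ℝ v⟩
  have h1 : Cc (dx (dx u)) := key (key hu (1, 0)) (1, 0)
  have h2 : Cc (dy (dy u)) := key (key hu (0, 1)) (0, 1)
  exact ⟨h1.smooth.add h2.smooth, h1.supp.add h2.supp⟩

/-- the radial bump: one on the disc of radius `d / 2`, zero outside of the disc of radius `d` -/
noncomputable def rb (d : ℝ) (y : Pl) : ℝ :=
  Real.smoothTransition ((3 - 4 / d ^ 2 * (y.1 ^ 2 + y.2 ^ 2)) / 2)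

lemma rb_smooth (d : ℝ) : ContDiff ℝ (⊤ : ℕ∞) (rb d) := by
  unfold rb
  refine Real.smoothTransition.contDiff.comp ?_
  fun_prop

lemma rb_nonneg (d : ℝ) (y : Pl) : 0 ≤ rb d y := Real.smoothTransition.nonneg _

lemma rb_le_one (d : ℝ) (y : Pl) : rb d y ≤ 1 := Real.smoothTransition.le_one _

lemma rb_radial (d : ℝ) (y y' : Pl) (h : y.1 ^ 2 + y.2 ^ 2 = y'.1 ^ 2 + y'.2 ^ 2) : rb d y = rb d y' := by
  unfold rb
  rw [h]

lemma rb_zero {d : ℝ} (hd : 0 < d) {y : Pl} (h : d ≤ eu y 0) : rb d y = 0 := by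
  have h1 : d ^ 2 ≤ y.1 ^ 2 + y.2 ^ 2 := by
    have h2 := eu_sq y 0
    simp only [Prod.fst_zero, Prod.snd_zero, sub_zero] at h2
    rw [← h2]
    exact pow_le_pow_left₀ hd.le h 2
  refine Real.smoothTransition.zero_of_nonpos ?_
  have h3 : 4 ≤ 4 / d ^ 2 * (y.1 ^ 2 + y.2 ^ 2) := by
    rw [div_mul_eq_mul_div, le_div_iff₀ (by positivity)]
    linarith
  linarith

lemma rb_one {d : ℝ} (hd : 0 < d) {y : Pl} (h : ‖y‖ ≤ d / 3) : rb d y = 1 := by
  refine Real.smoothTransition.one_of_one_le ?_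
  have h1 : |y.1| ≤ d / 3 := (norm_fst_le y).trans h
  have h2 : |y.2| ≤ d / 3 := (norm_snd_le y).trans h
  have h3 : y.1 ^ 2 ≤ (d / 3) ^ 2 := sq_le_sq' (by linarith [(abs_le.1 h1).1]) (abs_le.1 h1).2
  have h4 : y.2 ^ 2 ≤ (d / 3) ^ 2 := sq_le_sq' (by linarith [(abs_le.1 h2).1]) (abs_le.1 h2).2
  have h5 : 4 / d ^ 2 * (y.1 ^ 2 + y.2 ^ 2) ≤ 1 := by
    rw [div_mul_eq_mul_div, div_le_one (by positivity)]
    nlinarith
  linarith

lemma rb_supp {d : ℝ} (hd : 0 < d) : HasCompactSupport (rb d) := by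
  refine HasCompactSupport.intro (isCompact_closedBall (0 : Pl) d) fun y hy => ?_
  refine rb_zero hd ?_
  rw [Metric.mem_closedBall, not_le] at hy
  exact hy.le.trans (dist_le_eu y 0)

lemma rb_int {d : ℝ} (hd : 0 < d) : d ^ 2 / 3 ≤ ∫ y, rb d y := by
  have h1 : ∫ y in Metric.closedBall (0 : Pl) (d / 3), (1 : ℝ) = 4 * d ^ 2 / 9 := by
    rw [setIntegral_const, smul_eq_mul, mul_one]
    have h2 : Metric.closedBall (0 : Pl) (d / 3) = Metric.closedBall (0 : ℝ) (d / 3) ×ˢ
        Metric.closedBall (0 : ℝ) (d / 3) := by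
      rw [closedBall_prod_same]
      rfl
    rw [h2, Measure.volume_eq_prod, measureReal_def, Measure.prod_prod, Real.volume_closedBall,
      ENNReal.toReal_mul, ENNReal.toReal_ofReal (by positivity)]
    ring
  have hint : Integrable (rb d) := (rb_smooth d).continuous.integrable_of_hasCompactSupport (rb_supp hd)
  have h3 : ∫ y in Metric.closedBall (0 : Pl) (d / 3), (1 : ℝ) ≤
      ∫ y in Metric.closedBall (0 : Pl) (d / 3), rb d y := by
    refine setIntegral_mono_on ?_ hint.integrableOn Metric.isClosed_closedBall.measurableSet fun y hy => ?_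
    · exact integrableOn_const (isCompact_closedBall _ _).measure_lt_top.ne
    · rw [rb_one hd (by rwa [mem_closedBall_zero_iff] at hy)]
  have h4 : ∫ y in Metric.closedBall (0 : Pl) (d / 3), rb d y ≤ ∫ y, rb d y :=
    setIntegral_le_integral hint (Eventually.of_forall fun y => rb_nonneg d y)
  have : 0 < d ^ 2 := by positivity
  linarith

lemma eu_le_two {x y : Pl} : eu x y ≤ 2 * dist x y := by
  have h1 : |x.1 - y.1| ≤ dist x y := by
    rw [Prod.dist_eq, ← Real.dist_eq]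
    exact le_max_left _ _
  have h2 : |x.2 - y.2| ≤ dist x y := by
    rw [Prod.dist_eq, ← Real.dist_eq]
    exact le_max_right _ _
  unfold eu
  rw [Real.sqrt_le_left (by positivity)]
  have h3 : (x.1 - y.1) ^ 2 ≤ dist x y ^ 2 := sq_le_sq' (by linarith [(abs_le.1 h1).1]) (abs_le.1 h1).2
  have h4 : (x.2 - y.2) ^ 2 ≤ dist x y ^ 2 := sq_le_sq' (by linarith [(abs_le.1 h2).1]) (abs_le.1 h2).2
  nlinarith [sq_nonneg (dist x y)]

/-- the measure of a positive functional -/
lemma PF.meas {T : (Pl → ℝ) → ℝ} (hT : PF T) :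
    ∃ μ : Measure Pl, IsFiniteMeasureOnCompacts μ ∧ ∀ f, Cc f → T f = ∫ z, f z ∂μ :=
  exists_meas T hT.add hT.smul hT.pos

lemma mol_cc {r : ℝ} {η : Pl → ℝ} (hη : Mol r η) (x : Pl) : Cc (fun y => η (x - y)) :=
  (mol_tst hη (x := x) (W := univ) (subset_univ _)).1.toCc

/-- the mollified density is harmonic -/
lemma harm_mol {T : (Pl → ℝ) → ℝ} {μ : Measure Pl} [IsFiniteMeasureOnCompacts μ]
    (hμ : ∀ f, Cc f → T f = ∫ z, f z ∂μ) {V : Set Pl} (hV : Hm T V) {r : ℝ} {η : Pl → ℝ}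
    (hη : Mol r η) {x : Pl} (hx : Metric.closedBall x r ⊆ V) :
    ContDiffAt ℝ 2 (mol μ η) x ∧ lap (mol μ η) x = 0 := by
  refine ⟨((mol_smooth μ hη.toCc).of_le (WithTop.coe_le_coe.2 (le_top : (2 : ℕ∞) ≤ ⊤))).contDiffAt, ?_⟩
  obtain ⟨h1, h2⟩ := mol_tst hη hx
  rw [lap_mol μ hη.toCc x]
  have h3 := hV _ h1
  rw [hμ _ (lap_cc h1.toCc), h2] at h3
  exact h3

/-- local bound by the mass near the point -/
theorem local_bound {T : (Pl → ℝ) → ℝ} (hT : PF T) {V : Set Pl} (hV : Hm T V) {x : Pl} {d : ℝ}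
    (hd : 0 < d) (hx : ∀ y, eu y x ≤ 2 * d → y ∈ V) {G : Pl → ℝ} (hG : Cc G) (hG0 : ∀ z, 0 ≤ G z)
    (hG1 : ∀ y, eu y x ≤ 2 * d → 1 ≤ G y) {r : ℝ} (hr : 2 * r ≤ d) {η : Pl → ℝ} (hη : Mol r η) :
    T (fun y => η (x - y)) ≤ 3 / d ^ 2 * T G := by
  obtain ⟨μ, hμ1, hμ⟩ := hT.meas
  have hq : ∀ y, eu y x < d → ContDiffAt ℝ 2 (mol μ η) y ∧ lap (mol μ η) y = 0 := by
    intro y hy
    refine harm_mol hμ hV hη fun z hz => hx z ?_
    rw [Metric.mem_closedBall] at hz
    have h1 := eu_tri z y x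
    have h2 : eu z y ≤ 2 * dist z y := eu_le_two
    linarith
  have h1 := mean_radial (q := mol μ η) (χ := rb d) (x := x) (r := d) (mol_smooth μ hη.toCc).continuous hq
    (rb_smooth d).continuous (rb_radial d) (fun y hy => rb_zero hd hy)
  have hgc : Continuous fun y : Pl => rb d (y - x) := (rb_smooth d).continuous.comp (by fun_prop)
  have hgs : HasCompactSupport fun y : Pl => rb d (y - x) :=
    (rb_supp hd).comp_homeomorph (Homeomorph.subRight x)
  have h2 := mol_fub μ hη.toCc hgc hgs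
  have h3 : ∫ y, mol μ η y * rb d (y - x) = ∫ y, rb d (y - x) * mol μ η y := by
    congr 1
    funext y
    ring
  have hηi : ∀ y, Integrable fun z => η (z - y) := fun y =>
    ((hη.smooth.continuous).integrable_of_hasCompactSupport hη.supp).comp_sub_right y
  have hone : ∀ y, ∫ z, η (z - y) = 1 := by
    intro y
    rw [integral_sub_right_eq_self (fun z => η z) y]
    exact hη.int
  have h4 : ∀ y, (∫ z, η (z - y) * rb d (z - x)) ≤ G y := by
    intro y
    have hc : Continuous fun z => η (z - y) * rb d (z - x) :=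
      (hη.smooth.continuous.comp (by fun_prop)).mul hgc
    by_cases hy : eu y x ≤ 2 * d
    · have h5 : (∫ z, η (z - y) * rb d (z - x)) ≤ ∫ z, η (z - y) := by
        refine integral_mono (hc.integrable_of_hasCompactSupport hgs.mul_left) (hηi y) fun z => ?_
        exact mul_le_of_le_one_right (hη.nonneg _) (rb_le_one _ _)
      rw [hone] at h5
      exact h5.trans (hG1 y hy)
    · have h5 : (fun z => η (z - y) * rb d (z - x)) = fun _ => 0 := by
        funext z
        by_cases hz : η (z - y) = 0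
        · rw [hz, zero_mul]
        · have h6 := hη.small _ hz
          rw [← dist_eq_norm] at h6
          have h7 : eu z y ≤ 2 * dist z y := eu_le_two
          have h8 := eu_tri y z x
          rw [eu_comm y z] at h8
          have h9 : d ≤ eu z x := by linarith
          have h10 : eu (z - x) 0 = eu z x := by
            unfold eu
            simp
          rw [rb_zero hd (by rw [h10]; exact h9), mul_zero]
      rw [h5, integral_zero]
      exact hG0 y
  have h5 : ∫ y, (∫ z, η (z - y) * rb d (z - x)) ∂μ ≤ ∫ y, G y ∂μ := by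
    refine integral_mono_of_nonneg ?_ (hG.smooth.continuous.integrable_of_hasCompactSupport hG.supp)
      (Eventually.of_forall h4)
    exact Eventually.of_forall fun y => integral_nonneg fun z => mul_nonneg (hη.nonneg _) (rb_nonneg _ _)
  rw [← hμ G hG] at h5
  have h6 : mol μ η x = T (fun y => η (x - y)) := (hμ _ (mol_cc hη x)).symm
  rw [← h6]
  have h7 : 0 ≤ mol μ η x := mol_nonneg μ hη x
  have h8 := rb_int hd
  have h9 : mol μ η x * (d ^ 2 / 3) ≤ T G := by
    calc mol μ η x * (d ^ 2 / 3) ≤ mol μ η x * ∫ y, rb d y := mul_le_mul_of_nonneg_left h8 h7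
      _ ≤ T G := by rw [← h1, h3, h2]; exact h5
  have h10 : 0 < d ^ 2 := by positivity
  rw [div_mul_eq_mul_div, le_div_iff₀ h10]
  linarith

end DV.WD
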