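import Pool.Agent.Helper25.WD.Bar1

/-!
# DV-WILD: the harmonic majorant in an annulus
-/

open Filter Topology GF

namespace DV.WD

/-- A harmonic function on an annulus which is at most `e` on the inner circle and at most `e + S` on the outer
circle. -/
theorem annulus_bound {p : Pl} {r₁ r₂ e S : ℝ} (h1 : 0 < r₁) (h12 : r₁ < r₂) {q : Pl → ℝ}
    (hq : ∀ x, r₁ ≤ eu x p → eu x p ≤ r₂ → ContDiffAt ℝ 2 q x ∧ lap q x = 0)
    (hin : ∀ x, eu x p = r₁ → q x ≤ e) (hout : ∀ x, eu x p = r₂ → q x ≤ e + S) :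
    ∀ x, r₁ ≤ eu x p → eu x p ≤ r₂ →
      q x ≤ e + S * (Real.log (eu x p / r₁) / Real.log (r₂ / r₁)) := by
  have hr2 : 0 < r₂ := h1.trans h12
  have hlog : 0 < Real.log (r₂ / r₁) := Real.log_pos ((one_lt_div h1).2 h12)
  set k : ℝ := S / Real.log (r₂ / r₁) with hk
  set w : Pl → ℝ := fun x => (q x + k * Real.log (r₁ / eu x p)) + (-e) with hw
  have hlogeq : ∀ x, 0 < eu x p → Real.log (r₁ / eu x p) = -Real.log (eu x p / r₁) := by
    intro x hx
    rw [← Real.log_inv, inv_div]
  have hwC : ∀ x, r₁ ≤ eu x p → eu x p ≤ r₂ → ContDiffAt ℝ 2 w x ∧ lap w x = 0 := by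
    intro x hx1 hx2
    obtain ⟨c1, c2⟩ := hq x hx1 hx2
    obtain ⟨d1, d2⟩ := harm_one (lt_of_lt_of_le h1 hx1) h1
    have d3 : ContDiffAt ℝ 2 (fun x => k * Real.log (r₁ / eu x p)) x := contDiffAt_const.mul d1
    have c3 : lap (fun _ : Pl => (-e : ℝ)) x = 0 := by
      unfold lap dx dy
      simp
    refine ⟨(c1.add d3).add contDiffAt_const, ?_⟩
    rw [hw, lap_add_at (c1.add d3) contDiffAt_const, lap_add_at c1 d3, lap_smul_at _ d1, c2, d2, c3]
    ring
  set U : Set Pl := {x | r₁ < eu x p} ∩ {x | eu x p < r₂} with hU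
  have hUo : IsOpen U :=
    (isOpen_lt continuous_const (eu_continuous p)).inter (isOpen_lt (eu_continuous p) continuous_const)
  have hcl : ∀ x ∈ closure U, r₁ ≤ eu x p ∧ eu x p ≤ r₂ := by
    have hKc : IsClosed ({x : Pl | r₁ ≤ eu x p} ∩ {x | eu x p ≤ r₂}) :=
      (isClosed_le continuous_const (eu_continuous p)).inter
        (isClosed_le (eu_continuous p) continuous_const)
    have hUK : U ⊆ {x : Pl | r₁ ≤ eu x p} ∩ {x | eu x p ≤ r₂} := by
      rintro x ⟨hx1, hx2⟩
      have e1 : r₁ < eu x p := hx1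
      have e2 : eu x p < r₂ := hx2
      have e3 : r₁ ≤ eu x p := e1.le
      have e4 : eu x p ≤ r₂ := e2.le
      exact ⟨e3, e4⟩
    intro x hx
    exact closure_minimal hUK hKc hx
  have hbd : Bornology.IsBounded U := by
    refine Metric.isBounded_closedBall.subset (fun x hx => ?_ : U ⊆ Metric.closedBall p r₂)
    rw [Metric.mem_closedBall]
    have e1 : eu x p < r₂ := hx.2
    exact le_trans (dist_le_eu x p) e1.le
  have hbound : ∀ x, r₁ ≤ eu x p → eu x p ≤ r₂ → x ∉ U → w x ≤ 0 := by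
    intro x hx1 hx2 hxU
    have hpos : 0 < eu x p := lt_of_lt_of_le h1 hx1
    by_cases hz : r₁ < eu x p
    · have h3 : eu x p = r₂ := by
        by_contra hne
        exact hxU ⟨hz, lt_of_le_of_ne hx2 hne⟩
      have h4 := hout x h3
      simp only [hw]
      rw [hlogeq x hpos, h3, hk]
      have : S / Real.log (r₂ / r₁) * -Real.log (r₂ / r₁) = -S := by
        field_simp
      rw [this]
      linarith
    · have h3 : eu x p = r₁ := le_antisymm (not_lt.1 hz) hx1
      have h4 := hin x h3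
      simp only [hw]
      rw [hlogeq x hpos, h3, div_self h1.ne', Real.log_one]
      linarith
  have hmax := max_principle hUo hbd (w := w)
    (fun x hx => ((hwC x (hcl x hx).1 (hcl x hx).2).1.continuousAt).continuousWithinAt)
    (fun x hx => (hwC x (hcl x (subset_closure hx)).1 (hcl x (subset_closure hx)).2).1)
    (fun x hx => (hwC x (hcl x (subset_closure hx)).1 (hcl x (subset_closure hx)).2).2.ge) (by
      intro x hx
      rw [hUo.frontier_eq] at hx
      exact hbound x (hcl x hx.1).1 (hcl x hx.1).2 hx.2)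
  intro x hx1 hx2
  have hpos : 0 < eu x p := lt_of_lt_of_le h1 hx1
  have h3 : w x ≤ 0 := by
    by_cases hxU : x ∈ U
    · exact hmax x hxU
    · exact hbound x hx1 hx2 hxU
  simp only [hw] at h3
  rw [hlogeq x hpos, hk] at h3
  have h4 : S * (Real.log (eu x p / r₁) / Real.log (r₂ / r₁)) =
      S / Real.log (r₂ / r₁) * Real.log (eu x p / r₁) := by ring
  rw [h4]
  linarith

end DV.WD
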