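import Pool.Agent.Helper17.WD.Bar

/-!
# DV-WILD, block A: the logarithmic barrier of a porous wall (proofs)
-/

open Filter Topology GF

namespace DV.WD

/-! ### the Euclidean distance -/

lemma eu_eq (x y : Pl) : eu x y = ‖(⟨x.1, x.2⟩ : ℂ) - ⟨y.1, y.2⟩‖ := by
  rw [Complex.norm_eq_sqrt_sq_add_sq]
  rfl

lemma eu_nonneg (x y : Pl) : 0 ≤ eu x y := Real.sqrt_nonneg _

lemma eu_comm (x y : Pl) : eu x y = eu y x := by
  rw [eu_eq, eu_eq, norm_sub_rev]

lemma eu_tri (x y z : Pl) : eu x z ≤ eu x y + eu y z := by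
  rw [eu_eq, eu_eq, eu_eq]
  exact norm_sub_le_norm_sub_add_norm_sub _ _ _

lemma eu_abs (x y z : Pl) : |eu x z - eu y z| ≤ eu x y := by
  rw [abs_le]
  have h1 := eu_tri x y z
  have h2 := eu_tri y x z
  rw [eu_comm y x] at h2
  constructor <;> linarith

lemma eu_continuous (y : Pl) : Continuous fun x => eu x y := by
  unfold eu
  fun_prop

lemma eu_sq (x y : Pl) : eu x y ^ 2 = (x.1 - y.1) ^ 2 + (x.2 - y.2) ^ 2 := by
  unfold eu
  rw [Real.sq_sqrt (by positivity)]

lemma dist_le_eu (x y : Pl) : dist x y ≤ eu x y := by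
  rw [Prod.dist_eq, Real.dist_eq, Real.dist_eq]
  unfold eu
  refine max_le ?_ ?_
  · exact Real.abs_le_sqrt (by nlinarith [sq_nonneg (x.2 - y.2)])
  · exact Real.abs_le_sqrt (by nlinarith [sq_nonneg (x.1 - y.1)])

/-! ### the logarithm is harmonic -/

private lemma deriv2_log {A B : ℝ} (h : A ^ 2 + B ^ 2 ≠ 0) :
    deriv (deriv fun t : ℝ => Real.log ((A + t) ^ 2 + B ^ 2)) 0 =
      (2 * (A ^ 2 + B ^ 2) - 4 * A ^ 2) / (A ^ 2 + B ^ 2) ^ 2 := by
  have hq : ∀ t : ℝ, HasDerivAt (fun t : ℝ => (A + t) ^ 2 + B ^ 2) (2 * (A + t)) t := by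
    intro t
    have h1 := (((hasDerivAt_id t).const_add A).fun_pow 2).add_const (B ^ 2)
    simpa using h1
  have hne : ∀ᶠ t : ℝ in 𝓝 0, (A + t) ^ 2 + B ^ 2 ≠ 0 := by
    have hc : ContinuousAt (fun t : ℝ => (A + t) ^ 2 + B ^ 2) 0 := (hq 0).continuousAt
    exact hc.eventually_ne (by simpa using h)
  have h1 : (deriv fun t : ℝ => Real.log ((A + t) ^ 2 + B ^ 2)) =ᶠ[𝓝 0]
      fun t => 2 * (A + t) / ((A + t) ^ 2 + B ^ 2) := by
    filter_upwards [hne] with t ht
    exact ((hq t).log ht).deriv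
  rw [h1.deriv_eq]
  have h2 : HasDerivAt (fun t : ℝ => 2 * (A + t)) (2 * 1) 0 :=
    ((hasDerivAt_id (0 : ℝ)).const_add A).const_mul 2
  have h3 := h2.div (hq 0) (by simpa using h)
  have h4 : deriv (fun t : ℝ => 2 * (A + t) / ((A + t) ^ 2 + B ^ 2)) 0 =
      (2 * 1 * ((A + 0) ^ 2 + B ^ 2) - 2 * (A + 0) * (2 * (A + 0))) / ((A + 0) ^ 2 + B ^ 2) ^ 2 :=
    h3.deriv
  rw [h4]
  congr 1
  · ring
  · ring

private lemma sq_ne {x p : Pl} (h : 0 < eu x p) : (x.1 - p.1) ^ 2 + (x.2 - p.2) ^ 2 ≠ 0 := by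
  rw [← eu_sq]
  positivity

private lemma smooth_log {x p : Pl} (h : 0 < eu x p) :
    ContDiffAt ℝ 2 (fun x : Pl => Real.log ((x.1 - p.1) ^ 2 + (x.2 - p.2) ^ 2)) x := by
  refine ContDiffAt.log ?_ (sq_ne h)
  fun_prop

private lemma lap_log {x p : Pl} (h : 0 < eu x p) :
    lap (fun x : Pl => Real.log ((x.1 - p.1) ^ 2 + (x.2 - p.2) ^ 2)) x = 0 := by
  have hs := smooth_log h
  have h1 := second_line hs (1, 0)
  have h2 := second_line hs (0, 1)
  have hne := sq_ne h
  have e1 : (fun t : ℝ => Real.log (((x + t • ((1 : ℝ), (0 : ℝ))).1 - p.1) ^ 2 +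
      ((x + t • ((1 : ℝ), (0 : ℝ))).2 - p.2) ^ 2)) =
      fun t => Real.log (((x.1 - p.1) + t) ^ 2 + (x.2 - p.2) ^ 2) := by
    funext t
    congr 2
    · simp only [Prod.fst_add, Prod.smul_fst, smul_eq_mul, mul_one]
      ring
    · simp only [Prod.snd_add, Prod.smul_snd, smul_eq_mul, mul_zero, add_zero]
  have e2 : (fun t : ℝ => Real.log (((x + t • ((0 : ℝ), (1 : ℝ))).1 - p.1) ^ 2 +
      ((x + t • ((0 : ℝ), (1 : ℝ))).2 - p.2) ^ 2)) =
      fun t => Real.log (((x.2 - p.2) + t) ^ 2 + (x.1 - p.1) ^ 2) := by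
    funext t
    congr 1
    simp only [Prod.fst_add, Prod.snd_add, Prod.smul_fst, Prod.smul_snd, smul_eq_mul, mul_zero,
      mul_one, add_zero]
    ring
  rw [e1, deriv2_log hne] at h1
  rw [e2, deriv2_log (by rw [add_comm]; exact hne)] at h2
  unfold lap dx dy
  rw [← h1, ← h2]
  have hne' : (x.2 - p.2) ^ 2 + (x.1 - p.1) ^ 2 ≠ 0 := by
    rw [add_comm]
    exact hne
  field_simp
  ring

/-- `log (c / |x - p|)` is harmonic away from `p` -/
lemma harm_one {x p : Pl} (h : 0 < eu x p) {c : ℝ} (hc : 0 < c) :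
    ContDiffAt ℝ 2 (fun x => Real.log (c / eu x p)) x ∧ lap (fun x => Real.log (c / eu x p)) x = 0 := by
  have hev : (fun x => Real.log (c / eu x p)) =ᶠ[𝓝 x]
      fun x => Real.log c + (-(1 / 2)) * Real.log ((x.1 - p.1) ^ 2 + (x.2 - p.2) ^ 2) := by
    have h1 : ∀ᶠ y in 𝓝 x, 0 < eu y p :=
      ((eu_continuous p).continuousAt).eventually (lt_mem_nhds h)
    filter_upwards [h1] with y hy
    rw [Real.log_div hc.ne' hy.ne', ← eu_sq, Real.log_pow]
    push_cast
    ring
  have hs : ContDiffAt ℝ 2 (fun x : Pl => (-(1 / 2 : ℝ)) *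
      Real.log ((x.1 - p.1) ^ 2 + (x.2 - p.2) ^ 2)) x := contDiffAt_const.mul (smooth_log h)
  refine ⟨(contDiffAt_const.add hs).congr_of_eventuallyEq hev, ?_⟩
  have e1 : lap (fun x => Real.log (c / eu x p)) x = lap (fun x : Pl => Real.log c + (-(1 / 2)) *
      Real.log ((x.1 - p.1) ^ 2 + (x.2 - p.2) ^ 2)) x := by
    unfold lap dx dy
    have h2 := hev.fderiv (𝕜 := ℝ)
    have h3 : (fun y => fderiv ℝ (fun x => Real.log (c / eu x p)) y (1, 0)) =ᶠ[𝓝 x]
        fun y => fderiv ℝ (fun x : Pl => Real.log c + (-(1 / 2)) *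
          Real.log ((x.1 - p.1) ^ 2 + (x.2 - p.2) ^ 2)) y (1, 0) := by
      filter_upwards [h2] with y hy
      rw [hy]
    have h4 : (fun y => fderiv ℝ (fun x => Real.log (c / eu x p)) y (0, 1)) =ᶠ[𝓝 x]
        fun y => fderiv ℝ (fun x : Pl => Real.log c + (-(1 / 2)) *
          Real.log ((x.1 - p.1) ^ 2 + (x.2 - p.2) ^ 2)) y (0, 1) := by
      filter_upwards [h2] with y hy
      rw [hy]
    rw [h3.fderiv_eq, h4.fderiv_eq]
  rw [e1, lap_add_at contDiffAt_const hs, lap_smul_at _ (smooth_log h), lap_log h]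
  have h5 : lap (fun _ : Pl => Real.log c) x = 0 := by
    unfold lap dx dy
    simp
  rw [h5]
  ring

private lemma harm_sum {n : ℕ} {p : Fin n → Pl} {x : Pl} {c : ℝ} (hc : 0 < c) (s : Finset (Fin n))
    (h : ∀ i, 0 < eu x (p i)) :
    ContDiffAt ℝ 2 (fun x => ∑ i ∈ s, Real.log (c / eu x (p i))) x ∧
      lap (fun x => ∑ i ∈ s, Real.log (c / eu x (p i))) x = 0 := by
  classical
  induction s using Finset.induction_on with
  | empty =>
    refine ⟨by simp only [Finset.sum_empty]; exact contDiffAt_const, ?_⟩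
    unfold lap dx dy
    simp
  | insert i s hi ih =>
    have e : (fun x => ∑ i ∈ insert i s, Real.log (c / eu x (p i))) =
        fun x => Real.log (c / eu x (p i)) + ∑ i ∈ s, Real.log (c / eu x (p i)) := by
      funext y
      rw [Finset.sum_insert hi]
    rw [e]
    obtain ⟨h1, h2⟩ := harm_one (h i) hc
    exact ⟨h1.add ih.1, by rw [lap_add_at h1 ih.1, h2, ih.2, add_zero]⟩

/-! ### the sum over the shells -/

private lemma log_fact (n : ℕ) (hn : 0 < n) : (n : ℝ) * Real.log n - n ≤ Real.log (n.factorial) := by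
  have hn' : (0 : ℝ) < n := by exact_mod_cast hn
  have h1 := Real.pow_div_factorial_le_exp (n : ℝ) hn'.le n
  have hf : (0 : ℝ) < n.factorial := by exact_mod_cast n.factorial_pos
  have h2 : 0 < (n : ℝ) ^ n / n.factorial := by positivity
  have h3 := Real.log_le_log h2 h1
  rw [Real.log_exp, Real.log_div (by positivity) hf.ne', Real.log_pow] at h3
  linarith

private lemma sum_log {a b : ℝ} (ha : 0 < a) (hb : 0 < b) {n : ℕ} (hn : 0 < n)
    (h16 : b ≤ 16 * a * n) :
    ∑ j ∈ Finset.range n, Real.log (b / (a * (j + 1 : ℕ))) ≤ n * 3.8 := by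
  have hn' : (0 : ℝ) < n := by exact_mod_cast hn
  have h1 : ∑ j ∈ Finset.range n, Real.log (b / (a * (j + 1 : ℕ))) =
      n * Real.log (b / a) - Real.log (n.factorial) := by
    have e : ∀ j ∈ Finset.range n, Real.log (b / (a * (j + 1 : ℕ))) =
        Real.log (b / a) - Real.log ((j + 1 : ℕ) : ℝ) := by
      intro j _
      have hj : (0 : ℝ) < ((j + 1 : ℕ) : ℝ) := by positivity
      rw [← Real.log_div (by positivity) hj.ne']
      congr 1
      field_simp
    rw [Finset.sum_congr rfl e, Finset.sum_sub_distrib, Finset.sum_const, Finset.card_range,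
      nsmul_eq_mul, ← Real.log_prod]
    · congr 2
      rw [← Finset.prod_range_add_one_eq_factorial]
      push_cast
      rfl
    · intro j _
      positivity
  have h2 := log_fact n hn
  have h3 : Real.log (b / a) ≤ Real.log n + 4 * Real.log 2 := by
    have e : Real.log n + 4 * Real.log 2 = Real.log (16 * n) := by
      rw [Real.log_mul (by norm_num) hn'.ne', show (16 : ℝ) = 2 ^ 4 by norm_num, Real.log_pow]
      push_cast
      ring
    rw [e]
    refine Real.log_le_log (by positivity) ?_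
    rw [div_le_iff₀ ha]
    linarith
  have h4 := Real.log_two_lt_d9
  rw [h1]
  have h5 : (n : ℝ) * Real.log (b / a) ≤ n * (Real.log n + 4 * Real.log 2) :=
    mul_le_mul_of_nonneg_left h3 hn'.le
  nlinarith

private lemma sum_side {n : ℕ} (F : ℕ → ℝ) (hF : ∀ j, 1 ≤ j → j ≤ n → 0 ≤ F j) (A : Finset (Fin n))
    (g : Fin n → ℕ) (hg : ∀ i ∈ A, 1 ≤ g i ∧ g i ≤ n) (hinj : ∀ i ∈ A, ∀ j ∈ A, g i = g j → i = j) :
    ∑ i ∈ A, F (g i) ≤ ∑ j ∈ Finset.range n, F (j + 1) := by
  classical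
  have h1 : ∑ i ∈ A, F (g i) = ∑ j ∈ A.image (fun i => g i - 1), F (j + 1) := by
    rw [Finset.sum_image]
    · refine Finset.sum_congr rfl fun i hi => ?_
      rw [Nat.sub_add_cancel (hg i hi).1]
    · intro i hi j hj hij
      have e1 := (hg i hi).1
      have e2 := (hg j hj).1
      refine hinj i hi j hj ?_
      simp only at hij
      omega
  rw [h1]
  refine Finset.sum_le_sum_of_subset_of_nonneg ?_ ?_
  · intro j hj
    obtain ⟨i, hi, rfl⟩ := Finset.mem_image.1 hj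
    rw [Finset.mem_range]
    have e1 := hg i hi
    omega
  · intro j hj _
    exact hF _ (by omega) (by rw [Finset.mem_range] at hj; omega)

private lemma shell_sum {a b τ : ℝ} (ha : 0 < a) (hb : 0 < b) (hτ : 0 < τ) {n : ℕ} (hn : 0 < n)
    (h8 : 8 * a * n ≤ b) (h16 : b ≤ 16 * a * n) (hlog : Real.log (3 * b / τ) ≤ n) {p : Fin n → Pl}
    {z x : Pl} (hsh : ∀ i : Fin n, |eu (p i) z - 8 * ((i : ℝ) + 1) * a| ≤ a)
    (hx : ∀ i, τ ≤ eu x (p i)) : ∑ i, Real.log (3 * b / eu x (p i)) ≤ 10 * n := by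
  classical
  have hn' : (0 : ℝ) < n := by exact_mod_cast hn
  haveI : Nonempty (Fin n) := ⟨⟨0, hn⟩⟩
  obtain ⟨i₀, -, hi₀⟩ := Finset.exists_min_image Finset.univ
    (fun i : Fin n => |eu x z - 8 * ((i : ℝ) + 1) * a|) Finset.univ_nonempty
  -- the distance to the other shells
  have hdist : ∀ i : Fin n, i ≠ i₀ → 3 * a * |(i : ℝ) - (i₀ : ℝ)| ≤ eu x (p i) := by
    intro i hne
    have h1 := hi₀ i (Finset.mem_univ i)
    have h2 : |8 * ((i : ℝ) + 1) * a - 8 * ((i₀ : ℝ) + 1) * a| ≤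
        |eu x z - 8 * ((i : ℝ) + 1) * a| + |eu x z - 8 * ((i₀ : ℝ) + 1) * a| := by
      have := abs_sub_le (8 * ((i : ℝ) + 1) * a) (eu x z) (8 * ((i₀ : ℝ) + 1) * a)
      rwa [abs_sub_comm (8 * ((i : ℝ) + 1) * a) (eu x z)] at this
    have h3 : |8 * ((i : ℝ) + 1) * a - 8 * ((i₀ : ℝ) + 1) * a| = 8 * a * |(i : ℝ) - (i₀ : ℝ)| := by
      rw [show 8 * ((i : ℝ) + 1) * a - 8 * ((i₀ : ℝ) + 1) * a = 8 * a * ((i : ℝ) - (i₀ : ℝ)) by ring,
        abs_mul, abs_of_pos (by positivity : (0 : ℝ) < 8 * a)]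
    have h4 : 4 * a * |(i : ℝ) - (i₀ : ℝ)| ≤ |eu x z - 8 * ((i : ℝ) + 1) * a| := by
      rw [h3] at h2
      linarith
    have h5 : |eu x z - 8 * ((i : ℝ) + 1) * a| ≤ eu x (p i) + a := by
      have e1 := eu_abs x (p i) z
      have e2 := hsh i
      have e3 := abs_sub_le (eu x z) (eu (p i) z) (8 * ((i : ℝ) + 1) * a)
      linarith
    have h6 : (1 : ℝ) ≤ |(i : ℝ) - (i₀ : ℝ)| := by
      have h7 : (i : ℤ) - (i₀ : ℤ) ≠ 0 := by
        intro h8
        exact hne (Fin.ext (by omega))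
      have h8 := Int.one_le_abs h7
      have h9 : ((|(i : ℤ) - (i₀ : ℤ)| : ℤ) : ℝ) = |(i : ℝ) - (i₀ : ℝ)| := by push_cast; rfl
      rw [← h9]
      exact_mod_cast h8
    nlinarith
  set F : ℕ → ℝ := fun j => Real.log (b / (a * j)) with hF
  have hF0 : ∀ j, 1 ≤ j → j ≤ n → 0 ≤ F j := by
    intro j hj1 hjn
    have e1 : (0 : ℝ) < j := by exact_mod_cast hj1
    have e2 : (j : ℝ) ≤ n := by exact_mod_cast hjn
    refine Real.log_nonneg ?_
    rw [le_div_iff₀ (by positivity)]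
    nlinarith
  have hsum := sum_log ha hb hn h16
  -- the terms
  have hterm : ∀ i : Fin n, i ≠ i₀ → ∀ j : ℕ, 1 ≤ j → (j : ℝ) = |(i : ℝ) - (i₀ : ℝ)| →
      Real.log (3 * b / eu x (p i)) ≤ F j := by
    intro i hne j hj1 hj
    have e1 : (0 : ℝ) < j := by exact_mod_cast hj1
    have e2 := hdist i hne
    rw [← hj] at e2
    have e3 : 0 < eu x (p i) := lt_of_lt_of_le hτ (hx i)
    refine Real.log_le_log (by positivity) ?_
    rw [div_le_div_iff₀ e3 (by positivity)]
    nlinarith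
  have hA : ∑ i ∈ Finset.univ.filter (fun i : Fin n => i < i₀), Real.log (3 * b / eu x (p i)) ≤
      n * 3.8 := by
    refine le_trans (Finset.sum_le_sum (g := fun i : Fin n => F ((i₀ : ℕ) - (i : ℕ))) ?_) ?_
    · intro i hi
      have hlt : (i : ℕ) < (i₀ : ℕ) := (Finset.mem_filter.1 hi).2
      refine hterm i (fun h => by rw [h] at hlt; exact lt_irrefl _ hlt) _ (by omega) ?_
      rw [Nat.cast_sub hlt.le, abs_sub_comm, abs_of_nonneg]
      have : (i : ℝ) < (i₀ : ℝ) := by exact_mod_cast hlt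
      linarith
    · refine le_trans (sum_side F hF0 _ (fun i : Fin n => (i₀ : ℕ) - (i : ℕ)) ?_ ?_) ?_
      · intro i hi
        have hlt : (i : ℕ) < (i₀ : ℕ) := (Finset.mem_filter.1 hi).2
        have := i₀.2
        omega
      · intro i hi j hj hij
        have h1 : (i : ℕ) < (i₀ : ℕ) := (Finset.mem_filter.1 hi).2
        have h2 : (j : ℕ) < (i₀ : ℕ) := (Finset.mem_filter.1 hj).2
        exact Fin.ext (by omega)
      · exact hsum
  have hB : ∑ i ∈ Finset.univ.filter (fun i : Fin n => i₀ < i), Real.log (3 * b / eu x (p i)) ≤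
      n * 3.8 := by
    refine le_trans (Finset.sum_le_sum (g := fun i : Fin n => F ((i : ℕ) - (i₀ : ℕ))) ?_) ?_
    · intro i hi
      have hlt : (i₀ : ℕ) < (i : ℕ) := (Finset.mem_filter.1 hi).2
      refine hterm i (fun h => by rw [h] at hlt; exact lt_irrefl _ hlt) _ (by omega) ?_
      rw [Nat.cast_sub hlt.le, abs_of_nonneg]
      have : (i₀ : ℝ) < (i : ℝ) := by exact_mod_cast hlt
      linarith
    · refine le_trans (sum_side F hF0 _ (fun i : Fin n => (i : ℕ) - (i₀ : ℕ)) ?_ ?_) ?_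
      · intro i hi
        have hlt : (i₀ : ℕ) < (i : ℕ) := (Finset.mem_filter.1 hi).2
        have := i.2
        omega
      · intro i hi j hj hij
        have h1 : (i₀ : ℕ) < (i : ℕ) := (Finset.mem_filter.1 hi).2
        have h2 : (i₀ : ℕ) < (j : ℕ) := (Finset.mem_filter.1 hj).2
        exact Fin.ext (by omega)
      · exact hsum
  have hC : Real.log (3 * b / eu x (p i₀)) ≤ n := by
    refine le_trans (Real.log_le_log ?_ ?_) hlog
    · have e3 : 0 < eu x (p i₀) := lt_of_lt_of_le hτ (hx i₀)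
      positivity
    · exact div_le_div_of_nonneg_left (by positivity) hτ (hx i₀)
  have hsplit : ∑ i, Real.log (3 * b / eu x (p i)) =
      ∑ i ∈ Finset.univ.filter (fun i : Fin n => i < i₀), Real.log (3 * b / eu x (p i)) +
      (∑ i ∈ Finset.univ.filter (fun i : Fin n => i₀ < i), Real.log (3 * b / eu x (p i)) +
        Real.log (3 * b / eu x (p i₀))) := by
    have h1 := Finset.sum_filter_add_sum_filter_not Finset.univ (fun i : Fin n => i < i₀)
      (fun i => Real.log (3 * b / eu x (p i)))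
    rw [← h1]
    congr 1
    have h2 : Finset.univ.filter (fun i : Fin n => ¬ i < i₀) =
        insert i₀ (Finset.univ.filter (fun i : Fin n => i₀ < i)) := by
      ext i
      simp only [Finset.mem_filter, Finset.mem_univ, true_and, Finset.mem_insert, not_lt]
      exact ⟨fun h => (eq_or_lt_of_le h).imp Eq.symm id, fun h => h.elim (fun h => h.ge) le_of_lt⟩
    rw [h2, Finset.sum_insert (by simp), add_comm]
  rw [hsplit]
  nlinarith

/-- the logarithmic barrier -/
theorem log_barrier {P : Finset Pl} {z : Pl} {τ b : ℝ} (ht : 0 < τ) (hb : 0 < b) (h : Sh P τ z b) :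
    ∃ L : Pl → ℝ, (∀ x, (∀ y ∈ P, τ ≤ eu x y) → ContDiffAt ℝ 2 L x ∧ lap L x = 0 ∧ L x ≤ 1) ∧
      (∀ x, eu x z ≤ b → (∀ y ∈ P, τ ≤ eu x y) → 1 / 40 ≤ L x) ∧
      (∀ x, 6 * b ≤ eu x z → L x ≤ 0) := by
  obtain ⟨a, n, p, ha, hpP, hsh, h8, h16, hlog⟩ := h
  have hn : 0 < n := by
    rcases Nat.eq_zero_or_pos n with h0 | h0
    · rw [h0] at h16
      norm_num at h16
      linarith
    · exact h0
  have hn' : (0 : ℝ) < n := by exact_mod_cast hn
  have hn1 : (1 : ℝ) ≤ n := by exact_mod_cast hn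
  have h3b : (0 : ℝ) < 3 * b := by linarith
  have hab : 8 * a ≤ b := by nlinarith
  have hpz : ∀ i, eu (p i) z ≤ 9 / 8 * b := by
    intro i
    have h1 := (abs_le.1 (hsh i)).2
    have h2 : ((i : ℕ) : ℝ) + 1 ≤ n := by exact_mod_cast i.2
    nlinarith
  refine ⟨fun x => 1 / (10 * n) * ∑ i, Real.log (3 * b / eu x (p i)), ?_, ?_, ?_⟩
  · intro x hx
    have hx' : ∀ i, τ ≤ eu x (p i) := fun i => hx _ (hpP i)
    have hx0 : ∀ i, 0 < eu x (p i) := fun i => lt_of_lt_of_le ht (hx' i)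
    obtain ⟨h1, h2⟩ := harm_sum h3b Finset.univ hx0
    refine ⟨contDiffAt_const.mul h1, by rw [lap_smul_at _ h1, h2, mul_zero], ?_⟩
    have h3 := shell_sum ha hb ht hn h8 h16 hlog hsh hx'
    simp only
    rw [div_mul_eq_mul_div, one_mul, div_le_one (by positivity)]
    exact h3
  · intro x hxz hx
    have hx0 : ∀ i, 0 < eu x (p i) := fun i => lt_of_lt_of_le ht (hx _ (hpP i))
    have h1 : ∀ i, (1 / 4 : ℝ) ≤ Real.log (3 * b / eu x (p i)) := by
      intro i
      have e1 : eu x (p i) ≤ 17 / 8 * b := by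
        have e2 := eu_tri x z (p i)
        rw [eu_comm z (p i)] at e2
        have e3 := hpz i
        linarith
      have e4 : (24 / 17 : ℝ) ≤ 3 * b / eu x (p i) := by
        rw [le_div_iff₀ (hx0 i)]
        linarith
      have e5 := Real.one_sub_inv_le_log_of_pos (show (0 : ℝ) < 24 / 17 by norm_num)
      have e6 := Real.log_le_log (show (0 : ℝ) < 24 / 17 by norm_num) e4
      norm_num at e5
      linarith
    have h2 : (n : ℝ) * (1 / 4) ≤ ∑ i, Real.log (3 * b / eu x (p i)) := by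
      have h3 := Finset.card_nsmul_le_sum Finset.univ (fun i => Real.log (3 * b / eu x (p i)))
        (1 / 4) (fun i _ => h1 i)
      rw [Finset.card_univ, Fintype.card_fin, nsmul_eq_mul] at h3
      exact h3
    simp only
    rw [div_mul_eq_mul_div, one_mul, le_div_iff₀ (by positivity)]
    linarith
  · intro x hx
    have h1 : ∀ i, Real.log (3 * b / eu x (p i)) ≤ 0 := by
      intro i
      have e1 : 3 * b ≤ eu x (p i) := by
        have e2 := eu_tri x (p i) z
        have e3 := hpz i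
        linarith
      refine Real.log_nonpos (div_nonneg h3b.le (eu_nonneg _ _)) ?_
      exact (div_le_one (lt_of_lt_of_le h3b e1)).2 e1
    simp only
    exact mul_nonpos_of_nonneg_of_nonpos (by positivity) (Finset.sum_nonpos fun i _ => h1 i)

/-- one step of the barrier estimate -/
theorem barrier_step {P : Finset Pl} {z : Pl} {τ b s e : ℝ} (ht : 0 < τ) (hb : 0 < b)
    (h : Sh P τ z b) (hs : 0 ≤ s) (he : 0 ≤ e) {q : Pl → ℝ}
    (hq : ∀ x, eu x z ≤ 6 * b → (∀ y ∈ P, τ ≤ eu x y) → ContDiffAt ℝ 2 q x ∧ lap q x = 0 ∧ q x ≤ s)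
    (h2 : ∀ x, eu x z ≤ 6 * b → (∀ y ∈ P, τ ≤ eu x y) → (∃ y ∈ P, eu x y = τ) → q x ≤ e) :
    ∀ x, eu x z ≤ b → (∀ y ∈ P, τ ≤ eu x y) → q x ≤ (39 / 40) * s + e := by
  obtain ⟨L, hL1, hL2, hL3⟩ := log_barrier ht hb h
  set U : Set Pl := {x | eu x z < 6 * b} ∩ {x | ∀ y ∈ P, τ < eu x y} with hU
  set K : Set Pl := {x | eu x z ≤ 6 * b} ∩ {x | ∀ y ∈ P, τ ≤ eu x y} with hK
  have hUo : IsOpen U := by
    refine (isOpen_lt (eu_continuous z) continuous_const).inter ?_
    have : {x : Pl | ∀ y ∈ P, τ < eu x y} = ⋂ y ∈ P, {x | τ < eu x y} := by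
      ext x
      simp
    rw [this]
    exact isOpen_biInter_finset fun y _ => isOpen_lt continuous_const (eu_continuous y)
  have hKc : IsClosed K := by
    refine (isClosed_le (eu_continuous z) continuous_const).inter ?_
    have : {x : Pl | ∀ y ∈ P, τ ≤ eu x y} = ⋂ y ∈ P, {x | τ ≤ eu x y} := by
      ext x
      simp
    rw [this]
    exact isClosed_biInter fun y _ => isClosed_le continuous_const (eu_continuous y)
  have hUK : U ⊆ K := by
    rintro x ⟨hx1, hx2⟩
    have e1 : eu x z < 6 * b := hx1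
    have e2 : eu x z ≤ 6 * b := e1.le
    exact ⟨e2, fun y hy => (hx2 y hy).le⟩
  have hcl : closure U ⊆ K := closure_minimal hUK hKc
  have hbd : Bornology.IsBounded U := by
    refine Metric.isBounded_closedBall.subset (fun x hx => ?_ : U ⊆ Metric.closedBall z (6 * b))
    rw [Metric.mem_closedBall]
    have e1 : eu x z < 6 * b := hx.1
    exact le_trans (dist_le_eu x z) e1.le
  set w : Pl → ℝ := fun x => (q x + s * L x) + (-(s + e)) with hw
  have hwC : ∀ x ∈ K, ContDiffAt ℝ 2 w x ∧ lap w x = 0 := by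
    intro x hx
    obtain ⟨c1, c2, -⟩ := hq x hx.1 hx.2
    obtain ⟨d1, d2, -⟩ := hL1 x hx.2
    have d3 : ContDiffAt ℝ 2 (fun x => s * L x) x := contDiffAt_const.mul d1
    have c3 : lap (fun _ : Pl => (-(s + e) : ℝ)) x = 0 := by
      unfold lap dx dy
      simp
    refine ⟨(c1.add d3).add contDiffAt_const, ?_⟩
    rw [hw, lap_add_at (c1.add d3) contDiffAt_const, lap_add_at c1 d3, lap_smul_at _ d1, c2, d2, c3]
    ring
  have hmax := max_principle hUo hbd (w := w)
    (fun x hx => ((hwC x (hcl hx)).1.continuousAt).continuousWithinAt)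
    (fun x hx => (hwC x (hUK hx)).1) (fun x hx => (hwC x (hUK hx)).2.ge) (by
      intro x hx
      rw [hUo.frontier_eq] at hx
      have hxK := hcl hx.1
      obtain ⟨-, -, c3⟩ := hq x hxK.1 hxK.2
      obtain ⟨-, -, d3⟩ := hL1 x hxK.2
      have hsL : s * L x ≤ s := by
        have := mul_le_mul_of_nonneg_left d3 hs
        linarith
      by_cases hz : eu x z < 6 * b
      · have hex : ∃ y ∈ P, eu x y = τ := by
          by_contra hcon
          push Not at hcon
          exact hx.2 ⟨hz, fun y hy => lt_of_le_of_ne (hxK.2 y hy) (Ne.symm (hcon y hy))⟩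
        have h3 := h2 x hxK.1 hxK.2 hex
        simp only [hw]
        linarith
      · have h3 := hL3 x (not_lt.1 hz)
        have h4 : s * L x ≤ 0 := mul_nonpos_of_nonneg_of_nonpos hs h3
        simp only [hw]
        linarith)
  intro x hxz hxP
  have hx6 : eu x z ≤ 6 * b := by linarith
  by_cases hex : ∃ y ∈ P, eu x y = τ
  · have h3 := h2 x hx6 hxP hex
    have : 0 ≤ 39 / 40 * s := by positivity
    linarith
  · push Not at hex
    have hxU : x ∈ U := by
      refine ⟨?_, fun y hy => lt_of_le_of_ne (hxP y hy) (Ne.symm (hex y hy))⟩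
      show eu x z < 6 * b
      linarith
    have h3 := hmax x hxU
    have h4 := hL2 x hxz hxP
    simp only [hw] at h3
    have h5 := mul_le_mul_of_nonneg_left h4 hs
    linarith

/-- the barrier estimate over many scales -/
theorem barrier_iter {P : Finset Pl} {G : Set Pl} {τ R e S : ℝ} {m : ℕ} (ht : 0 < τ) (hR : 0 < R)
    (he : 0 ≤ e) (hS : 0 ≤ S) (hsh : ∀ j < m, ∀ z ∈ G, Sh P τ z (R / 8 ^ (j + 1))) {q : Pl → ℝ}
    (hq : ∀ x, (∃ z ∈ G, eu x z ≤ R) → (∀ y ∈ P, τ ≤ eu x y) →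
      ContDiffAt ℝ 2 q x ∧ lap q x = 0 ∧ q x ≤ S)
    (h2 : ∀ x, (∃ z ∈ G, eu x z ≤ R) → (∀ y ∈ P, τ ≤ eu x y) → (∃ y ∈ P, eu x y = τ) → q x ≤ e) :
    ∀ x, (∃ z ∈ G, eu x z ≤ R / 8 ^ m) → (∀ y ∈ P, τ ≤ eu x y) →
      q x ≤ (39 / 40) ^ m * S + 40 * e := by
  have key : ∀ j ≤ m, ∀ x, (∃ z ∈ G, eu x z ≤ R / 8 ^ j) → (∀ y ∈ P, τ ≤ eu x y) →
      q x ≤ (39 / 40) ^ j * S + 40 * e := by
    intro j
    induction j with
    | zero =>
      intro _ x hx hxP
      rw [pow_zero, div_one] at hx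
      obtain ⟨-, -, h3⟩ := hq x hx hxP
      rw [pow_zero, one_mul]
      linarith
    | succ j ih =>
      intro hj x hx hxP
      obtain ⟨z, hz, hxz⟩ := hx
      have hb : 0 < R / 8 ^ (j + 1) := by positivity
      have h6 : 6 * (R / 8 ^ (j + 1)) ≤ R / 8 ^ j := by
        rw [pow_succ, mul_div_assoc', div_le_div_iff₀ (by positivity) (by positivity)]
        have : (0 : ℝ) < 8 ^ j := by positivity
        nlinarith [mul_pos hR this]
      have h8 : R / 8 ^ j ≤ R := by
        refine div_le_self hR.le ?_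
        exact one_le_pow₀ (by norm_num)
      have hs : 0 ≤ (39 / 40 : ℝ) ^ j * S + 40 * e := by positivity
      have h3 := barrier_step ht hb (hsh j (by omega) z hz) hs he (q := q)
        (fun y hy hyP => by
          have hy1 : ∃ z ∈ G, eu y z ≤ R := ⟨z, hz, by linarith⟩
          obtain ⟨c1, c2, -⟩ := hq y hy1 hyP
          exact ⟨c1, c2, ih (by omega) y ⟨z, hz, by linarith⟩ hyP⟩)
        (fun y hy hyP hyE => h2 y ⟨z, hz, by linarith⟩ hyP hyE) x hxz hxP
      rw [pow_succ]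
      linarith
  exact key m le_rfl

end DV.WD
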