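import Pool.Agent.Helper25.WD.Pf

/-!
# DV-WILD, block A: from the bounds near the hairs to the wall

`T`, `T0`, `Ti p` are positive functionals `η ↦ L (X_f X_η)` of the environment with all hairs, without hairs, with the
hair at `p` only; outside of the hairs they are harmonic.
-/

open Filter Topology GF MeasureTheory Set

namespace DV.WD

/-- from mollified densities to the functional -/
lemma meas_le_of_mol {μ : Measure Pl} [IsFiniteMeasureOnCompacts μ] {χ : Pl → ℝ} (hχ : Cc χ)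
    (h0 : ∀ z, 0 ≤ χ z) {b r₀ : ℝ} (hr₀ : 0 < r₀)
    (h : ∀ r ≤ r₀, ∀ η, Mol r η → ∀ x ∈ tsupport χ, mol μ η x ≤ b) :
    ∫ z, χ z ∂μ ≤ b * ∫ z, χ z := by
  set K : Set Pl := Metric.cthickening 1 (tsupport χ) with hK
  have hKc : IsCompact K := hχ.supp.isCompact.cthickening
  have hKf : μ K < ⊤ := hKc.measure_lt_top
  have hχi : Integrable χ μ := hχ.smooth.continuous.integrable_of_hasCompactSupport hχ.supp
  have hχv : Integrable χ := hχ.smooth.continuous.integrable_of_hasCompactSupport hχ.supp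
  have key : ∀ ε > 0, ∫ z, χ z ∂μ ≤ b * (∫ z, χ z) + ε * (μ K).toReal := by
    intro ε hε
    obtain ⟨r₁, hr₁, happ⟩ := mol_approx hχ.smooth.continuous hχ.supp hε
    set r : ℝ := min (min r₀ r₁) 1 with hr
    have hrpos : 0 < r := lt_min (lt_min hr₀ hr₁) one_pos
    have hr0 : r ≤ r₀ := (min_le_left _ _).trans (min_le_left _ _)
    have hr1 : r ≤ r₁ := (min_le_left _ _).trans (min_le_right _ _)
    have hr2 : r ≤ 1 := min_le_right _ _
    obtain ⟨η, hη⟩ := exists_mol hrpos
    have hfub := mol_fub μ hη.toCc hχ.smooth.continuous hχ.supp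
    have h1 : ∫ x, χ x * mol μ η x ≤ b * ∫ z, χ z := by
      rw [← integral_const_mul]
      refine integral_mono ?_ (hχv.const_mul b) fun x => ?_
      · exact (hχ.smooth.continuous.mul (mol_smooth μ hη.toCc).continuous).integrable_of_hasCompactSupport
          hχ.supp.mul_right
      · show χ x * mol μ η x ≤ b * χ x
        by_cases hx : x ∈ tsupport χ
        · have := h r hr0 η hη x hx
          nlinarith [h0 x]
        · rw [image_eq_zero_of_notMem_tsupport hx]
          simp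
    have h2 : ∀ y, χ y ≤ (∫ x, η (x - y) * χ x) + K.indicator (fun _ => ε) y := by
      intro y
      by_cases hy : y ∈ K
      · rw [Set.indicator_of_mem hy]
        have := (abs_le.1 (happ r hr1 η hη y).1).1
        linarith
      · rw [Set.indicator_of_notMem hy, add_zero]
        have hy' : y ∉ tsupport χ := fun h => hy (Metric.self_subset_cthickening _ h)
        rw [image_eq_zero_of_notMem_tsupport hy']
        exact integral_nonneg fun x => mul_nonneg (hη.nonneg _) (h0 x)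
    have h3 : Integrable (fun y => ∫ x, η (x - y) * χ x) μ := by
      have h4 : (fun y => ∫ x, η (x - y) * χ x) = fun y => ∫ x, χ x * η (y - x) := by
        funext y
        congr 1
        funext x
        rw [← hη.even (x - y), neg_sub, mul_comm]
      have h5 : Continuous fun y => ∫ x, χ x * η (y - x) :=
        hη.supp.continuous_convolution_right (ContinuousLinearMap.lsmul ℝ ℝ) (μ := volume)
          hχ.smooth.continuous.locallyIntegrable hη.smooth.continuous
      have h6 : HasCompactSupport fun y => ∫ x, η (x - y) * χ x := by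
        refine HasCompactSupport.intro hKc fun y hy => ?_
        have h7 : (fun x => η (x - y) * χ x) = fun _ => 0 := by
          funext x
          by_cases hx : x ∈ tsupport χ
          · by_cases hz : η (x - y) = 0
            · rw [hz, zero_mul]
            · exfalso
              have h8 := hη.small _ hz
              refine hy (Metric.mem_cthickening_of_dist_le y x 1 _ hx ?_)
              rw [dist_comm, dist_eq_norm]
              linarith
          · rw [image_eq_zero_of_notMem_tsupport hx, mul_zero]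
        rw [h7, integral_zero]
      rw [h4] at h6 ⊢
      exact h5.integrable_of_hasCompactSupport h6
    have h4 : ∫ z, χ z ∂μ ≤ ∫ y, ((∫ x, η (x - y) * χ x) + K.indicator (fun _ => ε) y) ∂μ :=
      integral_mono hχi (h3.add ((integrableOn_const hKf.ne).integrable_indicator hKc.measurableSet)) h2
    rw [integral_add h3 ((integrableOn_const hKf.ne).integrable_indicator hKc.measurableSet),
      integral_indicator hKc.measurableSet, setIntegral_const, smul_eq_mul, ← hfub] at h4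
    have h5 : μ.real K * ε = ε * (μ K).toReal := by
      rw [measureReal_def]
      ring
    rw [h5] at h4
    linarith
  refine le_of_forall_pos_le_add fun ε hε => ?_
  have h1 : 0 < (μ K).toReal + 1 := by positivity
  refine (key (ε / ((μ K).toReal + 1)) (by positivity)).trans ?_
  have h2 : ε / ((μ K).toReal + 1) * (μ K).toReal ≤ ε := by
    rw [div_mul_eq_mul_div, div_le_iff₀ h1]
    nlinarith
  linarith

/-- local bound of a functional, test functions with values in the unit interval -/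
lemma local_bound_one {T : (Pl → ℝ) → ℝ} (hT : PF T) {V : Set Pl} (hV : Hm T V) {x : Pl} {D B : ℝ}
    (hD : 0 < D) (hx : ∀ y, eu y x < D → y ∈ V)
    (hB : ∀ η, Cc η → (∀ z, 0 ≤ η z ∧ η z ≤ 1) → (∀ z, η z ≠ 0 → eu z x < D) → T η ≤ B * D ^ 2)
    {r : ℝ} (hr : 12 * r ≤ D) {η : Pl → ℝ} (hη : Mol r η) :
    T (fun y => η (x - y)) ≤ 108 * B := by
  have hcc : Cc fun y : Pl => rb D (y - x) :=
    ⟨(rb_smooth D).comp (by fun_prop), (rb_supp hD).comp_homeomorph (Homeomorph.subRight x)⟩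
  have hz : ∀ z : Pl, eu (z - x) 0 = eu z x := by
    intro z
    unfold eu
    simp
  have h1 := local_bound hT hV (x := x) (d := D / 6) (by positivity) (fun y hy => hx y (by linarith)) hcc
    (fun y => rb_nonneg _ _) (fun y hy => by
      rw [rb_one hD]
      rw [← dist_eq_norm]
      have := dist_le_eu y x
      linarith) (r := r) (by linarith) hη
  have h2 := hB _ hcc (fun z => ⟨rb_nonneg _ _, rb_le_one _ _⟩) (fun z hz' => by
    by_contra h
    push Not at h
    exact hz' (rb_zero hD (by rw [hz]; exact h)))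
  refine h1.trans ?_
  have h5 : 3 / (D / 6) ^ 2 * T (fun y : Pl => rb D (y - x)) ≤ 3 / (D / 6) ^ 2 * (B * D ^ 2) :=
    mul_le_mul_of_nonneg_left h2 (by positivity)
  refine h5.trans (le_of_eq ?_)
  field_simp
  ring

/-- comparison on nonnegative test functions of `U` -/
def LeO (U : Set Pl) (T T' : (Pl → ℝ) → ℝ) : Prop := ∀ η, Tst U η → (∀ z, 0 ≤ η z) → T η ≤ T' η

/-- **The continuum part of DV-WILD**, comparisons off the balls only. -/
theorem wild_wall_on : ∃ C₀ : ℝ, 0 < C₀ ∧ ∀ (P : Finset Pl) (G : Set Pl) (ρ τ R S e : ℝ) (m : ℕ)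
    (T T0 : (Pl → ℝ) → ℝ) (Ti : Pl → (Pl → ℝ) → ℝ),
    PF T → PF T0 → (∀ p ∈ P, PF (Ti p)) →
    0 < ρ → 8 * ρ ≤ τ → 8 * τ ≤ R → 0 ≤ S → 0 ≤ e →
    (∀ p ∈ P, ∃ z ∈ G, eu p z ≤ R) →
    (∀ j < m, ∀ z ∈ G, Sh P τ z (R / 8 ^ (j + 1))) →
    Hm T {x | (∃ z ∈ G, eu x z < 4 * R) ∧ ∀ p ∈ P, τ / 2 < eu x p} →
    Hm T0 {x | ∃ z ∈ G, eu x z < 4 * R} →
    (∀ p ∈ P, Hm (Ti p) {x | (∃ z ∈ G, eu x z < 4 * R) ∧ ρ < eu x p}) →
    LeO {x | (∃ z ∈ G, eu x z < 4 * R) ∧ ∀ p ∈ P, τ / 2 < eu x p} T T0 →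
    (∀ p ∈ P, LeO {x | (∃ z ∈ G, eu x z < 4 * R) ∧ ∀ p ∈ P, τ / 2 < eu x p} T (Ti p)) →
    (∀ p ∈ P, LeO {x | (∃ z ∈ G, eu x z < 4 * R) ∧ ρ < eu x p} (Ti p) T0) →
    (∀ η, Cc η → (∀ z, 0 ≤ η z ∧ η z ≤ 1) → (∀ z, η z ≠ 0 → ∃ y ∈ G, eu z y < 4 * R) →
      T0 η ≤ S * R ^ 2) →
    (∀ p ∈ P, ∀ η, Cc η → (∀ z, 0 ≤ η z ∧ η z ≤ 1) →
      (∀ z, η z ≠ 0 → ρ < eu z p ∧ eu z p < 8 * ρ) → Ti p η ≤ e * ρ ^ 2) →
    ∀ η, Tst {x | (∃ z ∈ G, eu x z < R / 8 ^ m) ∧ ∀ p ∈ P, τ < eu x p} η → (∀ z, 0 ≤ η z) →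
      T η ≤ C₀ * ((39 / 40) ^ m * S + e + S * Real.log (τ / ρ) / Real.log (R / ρ)) * ∫ z, η z := by
  refine ⟨4320, by norm_num, ?_⟩
  intro P G ρ τ R S e m T T0 Ti hT hT0 hTi hρ hρτ hτR hS he hP hsh hHT hHT0 hHTi hle0 hlei hlei0 hb0 hbi
    χ hχ h0
  have hτ : 0 < τ := by linarith
  have hR : 0 < R := by linarith
  obtain ⟨μ, hμ1, hμ⟩ := hT.meas
  have hint : 0 ≤ ∫ z, χ z := integral_nonneg h0
  set Λ : ℝ := S * (Real.log (τ / ρ) / Real.log (R / ρ)) with hΛ
  have hlogτ : 0 ≤ Real.log (τ / ρ) := Real.log_nonneg (by rw [le_div_iff₀ hρ]; linarith)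
  have hlogR : 0 < Real.log (R / ρ) := Real.log_pos (by rw [lt_div_iff₀ hρ]; linarith)
  have hΛ0 : 0 ≤ Λ := mul_nonneg hS (div_nonneg hlogτ hlogR.le)
  have hΛ' : S * Real.log (τ / ρ) / Real.log (R / ρ) = Λ := by rw [hΛ, mul_div_assoc]
  rw [hΛ', hμ χ hχ.toCc]
  have main : ∫ z, χ z ∂μ ≤ ((39 / 40) ^ m * (108 * S) + 40 * (108 * e + 108 * Λ)) * ∫ z, χ z := by
    refine meas_le_of_mol hχ.toCc h0 (r₀ := ρ / 16) (by positivity) fun r hr η hη x hx => ?_
    have hmol : ∀ x, mol μ η x = T (fun y => η (x - y)) := fun x => (hμ _ (mol_cc hη x)).symm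
    -- the density without hairs
    have hq0 : ∀ x, (∃ z ∈ G, eu x z ≤ 2 * R) → T0 (fun y => η (x - y)) ≤ 108 * S := by
      rintro x ⟨g, hg, hgx⟩
      refine local_bound_one hT0 hHT0 (x := x) (D := R) hR (fun y hy => ⟨g, hg, ?_⟩) ?_ (by linarith) hη
      · have := eu_tri y x g
        linarith
      · intro θ hθ hθ1 hθ2
        refine hb0 θ hθ hθ1 fun z hz => ⟨g, hg, ?_⟩
        have := eu_tri z x g
        have := hθ2 z hz
        linarith
    have hnn : ∀ x, ∀ y, 0 ≤ η (x - y) := fun x y => hη.nonneg _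
    -- the density of one hair
    have hqi : ∀ p ∈ P, ∀ x, eu x p = τ → Ti p (fun y => η (x - y)) ≤ 108 * e + 108 * Λ := by
      intro p hp x hx
      obtain ⟨g, hg, hgp⟩ := hP p hp
      obtain ⟨ν, hν1, hν⟩ := (hTi p hp).meas
      have hmolν : ∀ x, mol ν η x = Ti p (fun y => η (x - y)) := fun x => (hν _ (mol_cc hη x)).symm
      have h1 := annulus_bound (p := p) (r₁ := 4 * ρ) (r₂ := R) (e := 108 * e) (S := 108 * S) (by positivity)
        (by linarith) (q := mol ν η) (fun y hy1 hy2 => by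
          refine harm_mol hν (hHTi p hp) hη fun z hz => ?_
          rw [Metric.mem_closedBall] at hz
          have h3 : eu z y ≤ 2 * dist z y := eu_le_two
          have h4 := abs_le.1 (eu_abs z y p)
          refine ⟨⟨g, hg, ?_⟩, by linarith [h4.1]⟩
          have := eu_tri z y g
          have := eu_tri y p g
          linarith) (fun y hy => by
          rw [hmolν]
          refine local_bound_one (hTi p hp) (hHTi p hp) (x := y) (D := 3 * ρ) (by positivity)
            (fun z hz => ?_) ?_ (by linarith) hη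
          · have h4 := abs_le.1 (eu_abs z y p)
            refine ⟨⟨g, hg, ?_⟩, by linarith [h4.1]⟩
            have := eu_tri z y g
            have := eu_tri y p g
            linarith
          · intro θ hθ hθ1 hθ2
            have h5 := hbi p hp θ hθ hθ1 fun z hz => by
              have h4 := abs_le.1 (eu_abs z y p)
              have := hθ2 z hz
              exact ⟨by linarith [h4.1], by linarith [h4.2]⟩
            refine h5.trans ?_
            have h6 : 0 ≤ e * ρ ^ 2 := by positivity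
            nlinarith) (fun y hy => by
          rw [hmolν]
          have h5 : Ti p (fun z => η (y - z)) ≤ T0 (fun z => η (y - z)) := by
            refine hlei0 p hp _ (mol_tst hη (x := y) fun z hz => ?_).1 (hnn y)
            rw [Metric.mem_closedBall] at hz
            have h3 : eu z y ≤ 2 * dist z y := eu_le_two
            have h4 := abs_le.1 (eu_abs z y p)
            refine ⟨⟨g, hg, ?_⟩, by linarith [h4.1]⟩
            have := eu_tri z y g
            have := eu_tri y p g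
            linarith
          have h6 := hq0 y ⟨g, hg, by
            have := eu_tri y p g
            linarith⟩
          have h7 : 0 ≤ 108 * e := by positivity
          linarith) x (by linarith) (by linarith)
      rw [hmolν] at h1
      refine h1.trans ?_
      have h2 : Real.log (eu x p / (4 * ρ)) / Real.log (R / (4 * ρ)) ≤
          Real.log (τ / ρ) / Real.log (R / ρ) := by
        rw [hx]
        have e1 : Real.log (τ / (4 * ρ)) = Real.log (τ / ρ) - Real.log 4 := by
          rw [← Real.log_div (by positivity) (by norm_num)]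
          congr 1
          field_simp
        have e2 : Real.log (R / (4 * ρ)) = Real.log (R / ρ) - Real.log 4 := by
          rw [← Real.log_div (by positivity) (by norm_num)]
          congr 1
          field_simp
        have e3 : 0 < Real.log (R / (4 * ρ)) :=
          Real.log_pos (by rw [lt_div_iff₀ (by positivity)]; linarith)
        have e4 : Real.log (τ / ρ) ≤ Real.log (R / ρ) := by
          refine Real.log_le_log (by positivity) ?_
          rw [div_le_div_iff_of_pos_right hρ]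
          linarith
        have e5 : 0 < Real.log 4 := Real.log_pos (by norm_num)
        rw [div_le_div_iff₀ e3 hlogR, e1, e2]
        nlinarith
      have h3 : 108 * S * (Real.log (eu x p / (4 * ρ)) / Real.log (R / (4 * ρ))) ≤ 108 * Λ := by
        rw [hΛ, mul_assoc]
        refine mul_le_mul_of_nonneg_left (mul_le_mul_of_nonneg_left h2 hS) (by norm_num)
      linarith
    have hcb : ∀ y, (∃ z ∈ G, eu y z ≤ R) → (∀ p ∈ P, τ ≤ eu y p) →
        Metric.closedBall y r ⊆ {x | (∃ z ∈ G, eu x z < 4 * R) ∧ ∀ p ∈ P, τ / 2 < eu x p} := by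
      rintro y ⟨g, hg, hgy⟩ hy2 z hz
      rw [Metric.mem_closedBall] at hz
      have h3 : eu z y ≤ 2 * dist z y := eu_le_two
      refine ⟨⟨g, hg, ?_⟩, fun p hp => ?_⟩
      · have := eu_tri z y g
        linarith
      · have h4 := abs_le.1 (eu_abs z y p)
        have := hy2 p hp
        linarith [h4.1]
    have hfin := barrier_iter (q := mol μ η) hτ hR (e := 108 * e + 108 * Λ) (S := 108 * S)
      (by positivity) (by positivity) hsh (fun y hy1 hy2 => by
        obtain ⟨h1, h2⟩ := harm_mol hμ hHT hη (hcb y hy1 hy2)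
        refine ⟨h1, h2, ?_⟩
        rw [hmol]
        obtain ⟨g, hg, hgy⟩ := hy1
        exact (hle0 _ (mol_tst hη (hcb y ⟨g, hg, hgy⟩ hy2)).1 (hnn y)).trans
          (hq0 y ⟨g, hg, by linarith⟩)) (fun y hy1 hy2 hy3 => by
        obtain ⟨p, hp, hyp⟩ := hy3
        rw [hmol]
        exact (hlei p hp _ (mol_tst hη (hcb y hy1 hy2)).1 (hnn y)).trans (hqi p hp y hyp))
    obtain ⟨⟨z, hz, hxz⟩, h2⟩ := hχ.sub hx
    exact hfin x ⟨z, hz, hxz.le⟩ fun y hy => (h2 y hy).le
  refine main.trans (mul_le_mul_of_nonneg_right ?_ hint)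
  have h3 : 0 ≤ (39 / 40 : ℝ) ^ m * S := by positivity
  nlinarith

/-- **The continuum part of DV-WILD.** -/
theorem wild_wall : ∃ C₀ : ℝ, 0 < C₀ ∧ ∀ (P : Finset Pl) (G : Set Pl) (ρ τ R S e : ℝ) (m : ℕ)
    (T T0 : (Pl → ℝ) → ℝ) (Ti : Pl → (Pl → ℝ) → ℝ),
    PF T → PF T0 → (∀ p ∈ P, PF (Ti p)) →
    0 < ρ → 8 * ρ ≤ τ → 8 * τ ≤ R → 0 ≤ S → 0 ≤ e →
    (∀ p ∈ P, ∃ z ∈ G, eu p z ≤ R) →
    (∀ j < m, ∀ z ∈ G, Sh P τ z (R / 8 ^ (j + 1))) →
    Hm T {x | (∃ z ∈ G, eu x z < 4 * R) ∧ ∀ p ∈ P, τ / 2 < eu x p} →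
    Hm T0 {x | ∃ z ∈ G, eu x z < 4 * R} →
    (∀ p ∈ P, Hm (Ti p) {x | (∃ z ∈ G, eu x z < 4 * R) ∧ ρ < eu x p}) →
    LeF T T0 → (∀ p ∈ P, LeF T (Ti p)) → (∀ p ∈ P, LeF (Ti p) T0) →
    (∀ η, Cc η → (∀ z, 0 ≤ η z ∧ η z ≤ 1) → (∀ z, η z ≠ 0 → ∃ y ∈ G, eu z y < 4 * R) →
      T0 η ≤ S * R ^ 2) →
    (∀ p ∈ P, ∀ η, Cc η → (∀ z, 0 ≤ η z ∧ η z ≤ 1) →
      (∀ z, η z ≠ 0 → ρ < eu z p ∧ eu z p < 8 * ρ) → Ti p η ≤ e * ρ ^ 2) →
    ∀ η, Tst {x | (∃ z ∈ G, eu x z < R / 8 ^ m) ∧ ∀ p ∈ P, τ < eu x p} η → (∀ z, 0 ≤ η z) →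
      T η ≤ C₀ * ((39 / 40) ^ m * S + e + S * Real.log (τ / ρ) / Real.log (R / ρ)) * ∫ z, η z := by
  obtain ⟨C₀, hC₀, h⟩ := wild_wall_on
  refine ⟨C₀, hC₀, ?_⟩
  intro P G ρ τ R S e m T T0 Ti hT hT0 hTi hρ hρτ hτR hS he hP hsh hHT hHT0 hHTi hle0 hlei hlei0 hb0 hbi
    χ hχ h0
  exact h P G ρ τ R S e m T T0 Ti hT hT0 hTi hρ hρτ hτR hS he hP hsh hHT hHT0 hHTi
    (fun η hη h0 => hle0 η hη.toCc h0) (fun p hp η hη h0 => hlei p hp η hη.toCc h0)
    (fun p hp η hη h0 => hlei0 p hp η hη.toCc h0) hb0 hbi χ hχ h0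

end DV.WD
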